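import Mathlib
import Pool.Agent.TH131.WMF.Rigid

/-!
# Weight-monodromy for rigid-analytic varieties with projective reduction of bounded degree

Fix `n` and `d`, and consider all rigid-analytic varieties `X` over `p`-adic local fields, for all
`p`, which have a strictly semistable formal model whose special fibre is a closed subscheme of
degree at most `d` of `ℙ^n_k` (the formal model and `X` need not be algebraic). There are finitely
many such varieties `Y_j` such that for each `X` either the eigenvalues of the geometric Frobenius
lifts on the graded pieces of the monodromy filtration of `H^w(X_C, ℚ_ℓ)` have the expected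
weights, for all `w` and all `ℓ ≠ p`, or there is some `Y_j` with the residue characteristic of `X`
such that for all `ℓ` and `w` the statement for `Y_j` implies the statement for `X`. In particular
the statement holds for all `X` if `p` is sufficiently large in terms of `n` and `d`.

* `F`, `hl`, `hh`: the family of all projective simple normal crossing log schemes of degree at most
  `d` over log points, its cohomology, which is lisse, and Hodge theory in characteristic `0`.
* `𝒮`, `hc`, `hw`: the rigid-analytic varieties, the comparison of their cohomology with the log
  cohomology of the special fibre, and the Weil conjectures (for the terms of the weight spectral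
  sequence).
-/

set_option autoImplicit false

namespace Pool.Agent.Results.MP_0f76a4_ag.BoundedDegree

open Pool.Agent.TH131.WMF

/-- The weight-monodromy statement for rigid-analytic varieties with strictly semistable projective
reduction of bounded degree reduces to finitely many of them. -/
theorem result {K : ℕ → Type} [∀ ℓ, Field (K ℓ)] [∀ ℓ, CharZero (K ℓ)] {F : LogFamily K}
    (hl : F.IsLisse) (hh : F.HodgeTheory) (𝒮 : RigidVarieties F) (hc : 𝒮.Comparison)
    (hw : 𝒮.WeilConjectures) :
    ∃ S : Set 𝒮.Obj, S.Finite ∧ ∀ X : 𝒮.Obj,
      (∀ ℓ : ℕ, ℓ.Prime → ℓ ≠ 𝒮.p X → ∀ w, 𝒮.Holds X ℓ w) ∨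
      ∃ Y ∈ S, 𝒮.p Y = 𝒮.p X ∧
        ∀ ℓ : ℕ, ℓ.Prime → ℓ ≠ 𝒮.p X → ∀ w, 𝒮.Holds Y ℓ w → 𝒮.Holds X ℓ w :=
  𝒮.finitely_many hl hh hc hw

end Pool.Agent.Results.MP_0f76a4_ag.BoundedDegree
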