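import Pool.Agent.TH121.RW.Main

/-!
# MP_0f76a4_ag: the weights of the invariants of inertia

Let `K` be a `p`-adic local field and `ℓ ≠ p`. We consider the smooth rigid-analytic varieties `X` over
the finite extensions `K'` of `K` which have an admissible formal model over the ring of integers of
`K'` with projective special fibre, as in the problem (`K'` so large that inertia acts unipotently on
the cohomology, which does not change the question). `𝒯 : RigidTheory E` lists the data and the known
facts which are used; neither hard nor weak Lefschetz theorems, which are not available for these `X`,
are among them.

The following are equivalent:

1. Q1 holds for all `X` and all `H ^ i (X)`;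
2. for all `X` and `i` the weights of the invariants of inertia in `H ^ i (X)` are at most `i`;
3. for all `X` and `i` the number `i + 1` is not a weight of the invariants of inertia in `H ^ i (X)`;
4. for all `X` of odd dimension `2 j - 1` the group `H ^ 0 (K', H ^ (2 j - 1) (X) (j))` is zero;
5. for all `X` of odd dimension `2 j - 1` the group `H ^ 1 (K', H ^ (2 j - 1) (X) (j))` is zero.

For a single `X` we show: Q1 holds for `X`, in all degrees, if the weights of the invariants of inertia
in `H ^ (2 i)` of the product of `X` with itself are at most `2 i` for all `i`, and so if the local
invariant cycle theorem holds in even degrees for the product of the formal model of `X` with itself,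
that is, if the specialization map from the cohomology of its special fibre to the invariants of inertia
is surjective. Here the special fibre has to be projective (or proper): the Hopf surfaces have formal
models with proper special fibre and violate the conclusion for `H ^ 1`, so they also violate the local
invariant cycle theorem for the product with itself.

The proof is by products with powers of elliptic curves with split multiplicative reduction, with
projective lines and with abelian varieties with good reduction (Honda-Tate), and by vectors killed by
`N` in the tensor product of `H ^ i (X)` with itself.
-/

universe u v

namespace Pool.Agent.Results.MP_0f76a4_ag.WeightsOfInvariants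

open Pool.Agent.TH121.RW

/-- **The weight-monodromy conjecture for rigid-analytic varieties with projective reduction and the
weights of the invariants of inertia.** -/
theorem result {E : Type u} [Field E] [CharZero E] [IsAlgClosed E] (hE : Nonempty (E →+* ℂ))
    (𝒯 : RigidTheory.{u, v} E) :
    [𝒯.MonodromyWeight, 𝒯.WeightsAtMost, 𝒯.NextWeightMissing, 𝒯.NoGaloisInvariants,
      𝒯.NoGaloisCohomology].TFAE ∧
    (∀ X, 𝒯.SquareWeightsAtMost X → 𝒯.QOneFor X) ∧
    (∀ X, (∀ i, 𝒯.LocalInvariantCycles (𝒯.square X) (i + i)) → 𝒯.QOneFor X) :=
  RigidTheory.main 𝒯 hE

end Pool.Agent.Results.MP_0f76a4_ag.WeightsOfInvariants
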